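import Pool.Agent.V11163.NT.Fin

/-!
# Hidden pairs and tree tensor networks with many reads: given cells
-/

set_option autoImplicit false

open Finset

namespace Pool.Agent.V11177.TN

open Pool.Agent.TH700.TN Pool.Agent.V11163.NT
open Pool.Agent.W896.RK Pool.Agent.W896.HP Pool.Agent.W896.FD Pool.Agent.W896.FD.Star

theorem sum_idx {V : Type} [Fintype V] {n : ℕ} {p : Fin n → V} (g : V → ℕ) :
    ∑ v with idx p v ≠ none, g v ≤ ∑ i, g (p i) := by
  classical
  calc ∑ v with idx p v ≠ none, g v ≤ ∑ v ∈ (univ : Finset (Fin n)).image p, g v := by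
        apply sum_le_sum_of_subset
        intro v hv
        rw [mem_filter] at hv
        rw [mem_image]
        obtain ⟨i, hi⟩ := Option.ne_none_iff_exists'.1 hv.2
        exact ⟨i, mem_univ _, idx_some hi⟩
    _ ≤ ∑ i, g (p i) := sum_image_le_of_nonneg (fun _ _ => Nat.zero_le _)

open Classical in
/-- **The bound**, for a random network; the cells `p`. -/
theorem final {V : Type} [Fintype V] {n b : ℕ} {ν : Bool} (k : ℕ) (hb : n ≤ 64 * (b + 1))
    {p : Fin n → V} (hp : Function.Injective p) (b₀ : Equiv.Perm (Fin n) → V → Bool)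
    (c : Fin b × Fin 4 ↪ Fin n)
    (Q : Equiv.Perm (Fin n) → (Fin b → Bool) → (Fin b → Bool) → Prop) (Δ : ℕ)
    (hΔ : vol b Δ ≤ 2 ^ (n / 2 ^ (60 * (k + 1))))
    (h2 : ∀ ρ z z', Δ < dst z z' → ¬ (Q ρ z z' ∧ Q ρ z' z))
    (R : Type) [Fintype R] [Nonempty R] (K W : R → Type) [∀ r, Field (K r)]
    [∀ r, Fintype (W r)] (T : ∀ r, Net (K r) V (W r)) (a : ∀ r, W r → K r)
    (hU : ∀ r ρ z z', (T r).value (a r) (inS ν p b₀ c ρ z z') ≠ 0 → Q ρ z z')
    (hc : ∀ (ρ : Equiv.Perm (Fin n)) (z : Fin b → Bool),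
      Nat.card R ≤ 2 ^ (n / 2 ^ (60 * (k + 1))) *
        Nat.card {r // (T r).value (a r) (inS ν p b₀ c ρ z z) ≠ 0})
    (hd : ∀ r, ∑ i, (T r).reads (p i) ≤ k * n) :
    ∃ r, n ≤ 2 ^ (60 * (k + 1)) * (Nat.log 2 (Fintype.card (W r)) + 1) := by
  refine Pool.Agent.V11163.NT.final k hb (idx p) (fun ρ z z' => inS ν p b₀ c ρ z z') c
    (fun ρ z z' y y' v h => ?_) Q Δ hΔ h2 R K W T a hU hc (fun r => ?_)
  · rcases inS_diff h with ⟨i, h3, h4⟩ | ⟨i, h3, h4⟩
    · exact Or.inl ⟨i, h4, by rw [← h3, idx_apply hp]⟩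
    · exact Or.inr ⟨i, h4, by rw [← h3, idx_apply hp]⟩
  · exact (sum_idx _).trans (hd r)

end Pool.Agent.V11177.TN
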