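import Pool.Agent.V11177.TN.Met
import Pool.Agent.V11177.TN.Star
import Pool.Agent.V11163.NT.Upper
import Pool.Agent.V11163.NT.Asym

/-!
# Weights which are distances: circuits of small formal degree and tree tensor networks
-/

set_option autoImplicit false
set_option maxHeartbeats 1000000

open Finset

namespace Pool.Agent.V11177.TN.Met

open Pool.Agent.TH700.TN Pool.Agent.V11163.NT
open Pool.Agent.W896.RK Pool.Agent.W896.HP Pool.Agent.W896.FD Pool.Agent.W896.FD.Star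

variable {n b : ℕ}

theorem arith {k n P D : ℕ} (hP : P = 2 ^ (60 * (k + 1 + 1))) (hD : D = 2 ^ (180 * (k + 1))) :
    (n + 1) / D ≤ n / P ∧ k + 2 ≤ D ∧ ∀ l : ℕ, n ≤ P * (l + 1) → n + 1 ≤ D * (l + 1) := by
  have hk : k + 1 ≤ 2 ^ k := Nat.lt_two_pow_self
  have hPD : 2 ^ 60 * P ≤ D := by
    rw [hP, hD, ← pow_add]
    exact Nat.pow_le_pow_right (by norm_num) (by omega)
  have hP1 : 0 < P := by rw [hP]; exact Nat.two_pow_pos _
  refine ⟨?_, ?_, ?_⟩
  · rw [Nat.le_div_iff_mul_le hP1]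
    have h1 : (n + 1) / D * D ≤ n + 1 := Nat.div_mul_le_self _ _
    have h2 : (n + 1) / D * (2 * P) ≤ n + 1 := by
      refine le_trans (Nat.mul_le_mul_left _ ?_) h1
      refine le_trans ?_ hPD
      exact Nat.mul_le_mul_right _ (by norm_num)
    have h3 : (n + 1) / D * (2 * P) = 2 * ((n + 1) / D * P) := by ring
    rw [h3] at h2
    omega
  · rw [hD]
    calc k + 2 ≤ 2 ^ k * 2 ^ 1 := by omega
      _ = 2 ^ (k + 1) := by rw [pow_add]
      _ ≤ _ := Nat.pow_le_pow_right (by norm_num) (by omega)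
  · intro l hl
    have h4 : 1 ≤ P * (l + 1) := Nat.mul_pos hP1 (by omega)
    calc n + 1 ≤ 2 * (P * (l + 1)) := by omega
      _ = (2 * P) * (l + 1) := by ring
      _ ≤ D * (l + 1) := by
          apply Nat.mul_le_mul_right
          refine le_trans ?_ hPD
          exact Nat.mul_le_mul_right _ (by norm_num)

theorem exists_c (n : ℕ) : ∃ b : ℕ, n ≤ 64 * (b + 1) ∧ Nonempty (Fin b × Fin 4 ↪ Fin n) := by
  obtain ⟨b, hb⟩ : ∃ b, b = n / 4 := ⟨_, rfl⟩
  have hb1 : n < 4 * (b + 1) := by rw [hb]; exact Nat.lt_mul_div_succ n (by norm_num)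
  have hb2 : 4 * b ≤ n := by rw [hb]; exact Nat.mul_div_le _ _
  refine ⟨b, by omega, ?_⟩
  apply Function.Embedding.nonempty_of_card_le
  rw [Fintype.card_prod, Fintype.card_fin, Fintype.card_fin, Fintype.card_fin]
  omega

/-! ### Circuits of small formal degree -/

theorem deg_row (k n : ℕ) (u : Fin (n + 1)) (R : Type) [Fintype R] [Nonempty R]
    (U : R → Circ (Pos (n + 1)))
    (hU : ∀ r I, (U r).Val I (U r).out → IsDist I)
    (hc : ∀ I, IsDist I →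
      Nat.card R ≤ 2 ^ (n / 2 ^ (60 * (k + 1))) * Nat.card {r // (U r).Val I (U r).out})
    (hd : ∀ r, ∃ d : (U r).G → Fin n → ℕ, IsDeg (U r) (low u) d ∧
      ∑ e, d (U r).out e ≤ k * n) :
    ∃ r, n ≤ 2 ^ (60 * (k + 1)) * (Nat.log 2 (Fintype.card (U r).G) + 1) := by
  classical
  obtain ⟨b, hb, ⟨c⟩⟩ := exists_c n
  refine Star.final (ν := false) k (b := b) hb (low_inj u) (base u c) c
    (fun ρ z z' => Closed (inst u c ρ z z')) 0 ?_ (fun ρ z z' h => excl u c ρ z z' h) R U ?_ ?_ hd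
  · rw [vol_zero]
    exact Nat.one_le_two_pow
  · intro r ρ z z' h
    exact (isDist_iff _).1 (hU r _ h)
  · intro ρ z
    exact hc _ ((isDist_iff _).2 (closed u c ρ z))

/-- One vertex. -/
theorem deg_vertex (k n : ℕ) (u : Fin n) (R : Type) [Fintype R] [Nonempty R]
    (U : R → Circ (Pos n))
    (hU : ∀ r I, (U r).Val I (U r).out → IsDist I)
    (hc : ∀ I, IsDist I →
      Nat.card R ≤ 2 ^ (n / 2 ^ (180 * (k + 1))) * Nat.card {r // (U r).Val I (U r).out})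
    (hd : ∀ r, ∃ d : (U r).G → Pos n → ℕ, IsDeg (U r) id d ∧
      ∑ v, d (U r).out (u, v, false) ≤ k * n) :
    ∃ r, n ≤ 2 ^ (180 * (k + 1)) * (Nat.log 2 (Fintype.card (U r).G) + 1) := by
  classical
  obtain ⟨P, hP⟩ : ∃ P, P = 2 ^ (60 * (k + 1 + 1)) := ⟨_, rfl⟩
  obtain ⟨D, hD⟩ : ∃ D, D = 2 ^ (180 * (k + 1)) := ⟨_, rfl⟩
  rw [← hD] at hc ⊢
  rcases Nat.lt_or_ge n (k + 2) with hn | hn
  · obtain ⟨r⟩ := (inferInstance : Nonempty R)
    exact ⟨r, (hn.le.trans (arith (n := n) hP hD).2.1).trans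
      (Nat.le_mul_of_pos_right _ (by omega))⟩
  obtain ⟨n', rfl⟩ : ∃ n', n = n' + 1 := ⟨n - 1, by omega⟩
  obtain ⟨h1, -, h3⟩ := arith (n := n') hP hD
  obtain ⟨r, hr⟩ := deg_row (k + 1) n' u R U hU (fun I hI => (hc I hI).trans
    (Nat.mul_le_mul_right _ (Nat.pow_le_pow_right (by norm_num) (by rw [← hP]; exact h1))))
    (fun r => by
      obtain ⟨d, hd1, hd2⟩ := hd r
      refine ⟨_, Tri.deg_comp hd1 (low u), ?_⟩
      have h1 : ∑ v, d (U r).out (low u v) ≤ ∑ v, d (U r).out (u, v, false) := by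
        rw [Fin.sum_univ_succAbove _ u]
        unfold low
        exact Nat.le_add_left _ _
      refine h1.trans (hd2.trans ?_)
      nlinarith)
  rw [← hP] at hr
  exact ⟨r, h3 _ hr⟩

/-- The asymptotic form. -/
theorem deg_asym {ε : ℝ} (hε : 0 < ε) (hε1 : ε ≤ 1) : ∃ n₀ : ℕ, ∀ n ≥ n₀,
    ∀ w μ : ℕ, (w : ℝ) ≤ (n : ℝ) ^ (1 - ε) → (μ : ℝ) ≤ (n : ℝ) ^ (1 - ε) →
    ∀ (R : Type) [Fintype R] [Nonempty R] (U : R → Circ (Pos n)) (d : ∀ r, (U r).G → Pos n → ℕ),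
      (∀ r, IsDeg (U r) id (d r)) → (∀ r, Fintype.card (U r).G ≤ 2 ^ w) →
      (∀ r I, (U r).Val I (U r).out → IsDist I) →
      (∀ I, IsDist I → Nat.card R ≤ 2 ^ μ * Nat.card {r // (U r).Val I (U r).out}) →
      ∀ u, ∃ r, ε / 540 * (n * Real.logb 2 n) ≤ (∑ v, d r (U r).out (u, v, false) : ℕ) := by
  obtain ⟨n₀, hn₀⟩ := asym' 180 (by norm_num) hε hε1
  refine ⟨n₀, fun n hn w μ hw hμ R _ _ U d hd hW hU hc u => ?_⟩
  obtain ⟨r, hr⟩ := hn₀ n hn w μ hw hμ R (fun r => ∑ v, d r (U r).out (u, v, false))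
    (fun r => Nat.log 2 (Fintype.card (U r).G)) (fun r => by
      refine (Nat.log_mono_right (hW r)).trans (le_of_eq ?_)
      exact Nat.log_pow (by norm_num) w) (fun k hk hk' => by
      refine deg_vertex k n u R U hU (fun I hI => ?_) (fun r => ⟨d r, hd r, hk' r⟩)
      exact (hc I hI).trans (Nat.mul_le_mul_right _ (Nat.pow_le_pow_right (by norm_num) hk)))
  refine ⟨r, le_trans (le_of_eq ?_) hr⟩
  norm_num

/-- All the low bits, one circuit. -/
theorem deg_total {ε : ℝ} (hε : 0 < ε) (hε1 : ε ≤ 1) : ∃ n₀ : ℕ, ∀ n ≥ n₀,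
    ∀ w : ℕ, (w : ℝ) ≤ (n : ℝ) ^ (1 - ε) →
    ∀ (U : Circ (Pos n)) (d : U.G → Pos n → ℕ), IsDeg U id d → Fintype.card U.G ≤ 2 ^ w →
      (∀ I, U.Val I U.out ↔ IsDist I) →
      ε / 540 * (n ^ 2 * Real.logb 2 n) ≤
        (∑ e : Fin n × Fin n, d U.out (e.1, e.2, false) : ℕ) := by
  obtain ⟨n₀, hn₀⟩ := deg_asym hε hε1
  refine ⟨n₀, fun n hn w hw U d hd hW h => ?_⟩
  have h1 : ∀ u : Fin n, ε / 540 * (n * Real.logb 2 n) ≤
      (∑ v, d U.out (u, v, false) : ℕ) := by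
    intro u
    obtain ⟨r, hr⟩ := hn₀ n hn w 0 hw (by push_cast; positivity) Unit (fun _ => U) (fun _ => d)
      (fun _ => hd) (fun _ => hW) (fun _ I hI => (h I).1 hI)
      (fun I hI => by
        have h2 : Nat.card {r : Unit // U.Val I U.out} = 1 := by
          rw [Nat.card_eq_one_iff_unique]
          exact ⟨⟨fun a b => Subtype.ext rfl⟩, ⟨⟨(), (h I).2 hI⟩⟩⟩
        rw [h2, mul_one, Nat.card_unique]
        exact Nat.one_le_two_pow) u
    exact hr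
  have h2 : ∑ u : Fin n, ε / 540 * (n * Real.logb 2 n) ≤
      ((∑ u : Fin n, ∑ v, d U.out (u, v, false) : ℕ) : ℝ) := by
    rw [Nat.cast_sum]
    exact sum_le_sum (fun u _ => h1 u)
  rw [sum_const, card_univ, Fintype.card_fin, nsmul_eq_mul] at h2
  rw [Fintype.sum_prod_type]
  calc ε / 540 * (n ^ 2 * Real.logb 2 n) = n * (ε / 540 * (n * Real.logb 2 n)) := by ring
    _ ≤ _ := h2

/-! ### Tree tensor networks -/

theorem net_row (k n : ℕ) (u : Fin (n + 1)) (R : Type) [Fintype R] [Nonempty R]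
    (K W : R → Type) [∀ r, Field (K r)] [∀ r, Fintype (W r)]
    (T : ∀ r, Net (K r) (Pos (n + 1)) (W r)) (a : ∀ r, W r → K r)
    (hU : ∀ r I, (T r).value (a r) I ≠ 0 → IsDist I)
    (hc : ∀ I, IsDist I →
      Nat.card R ≤ 2 ^ (n / 2 ^ (60 * (k + 1))) * Nat.card {r // (T r).value (a r) I ≠ 0})
    (hd : ∀ r, ∑ v, (T r).reads (low u v) ≤ k * n) :
    ∃ r, n ≤ 2 ^ (60 * (k + 1)) * (Nat.log 2 (Fintype.card (W r)) + 1) := by
  classical
  obtain ⟨b, hb, ⟨c⟩⟩ := exists_c n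
  refine TN.final (ν := false) k (b := b) hb (low_inj u) (base u c) c
    (fun ρ z z' => Closed (inst u c ρ z z')) 0 ?_ (fun ρ z z' h => excl u c ρ z z' h) R K W T a
    ?_ ?_ hd
  · rw [vol_zero]
    exact Nat.one_le_two_pow
  · intro r ρ z z' h
    exact (isDist_iff _).1 (hU r _ h)
  · intro ρ z
    exact hc _ ((isDist_iff _).2 (closed u c ρ z))

/-- One vertex. -/
theorem net_vertex (k n : ℕ) (u : Fin n) (R : Type) [Fintype R] [Nonempty R]
    (K W : R → Type) [∀ r, Field (K r)] [∀ r, Fintype (W r)]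
    (T : ∀ r, Net (K r) (Pos n) (W r)) (a : ∀ r, W r → K r)
    (hU : ∀ r I, (T r).value (a r) I ≠ 0 → IsDist I)
    (hc : ∀ I, IsDist I →
      Nat.card R ≤ 2 ^ (n / 2 ^ (180 * (k + 1))) * Nat.card {r // (T r).value (a r) I ≠ 0})
    (hd : ∀ r, ∑ v, (T r).reads (u, v, false) ≤ k * n) :
    ∃ r, n ≤ 2 ^ (180 * (k + 1)) * (Nat.log 2 (Fintype.card (W r)) + 1) := by
  classical
  obtain ⟨P, hP⟩ : ∃ P, P = 2 ^ (60 * (k + 1 + 1)) := ⟨_, rfl⟩
  obtain ⟨D, hD⟩ : ∃ D, D = 2 ^ (180 * (k + 1)) := ⟨_, rfl⟩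
  rw [← hD] at hc ⊢
  rcases Nat.lt_or_ge n (k + 2) with hn | hn
  · obtain ⟨r⟩ := (inferInstance : Nonempty R)
    exact ⟨r, (hn.le.trans (arith (n := n) hP hD).2.1).trans
      (Nat.le_mul_of_pos_right _ (by omega))⟩
  obtain ⟨n', rfl⟩ : ∃ n', n = n' + 1 := ⟨n - 1, by omega⟩
  obtain ⟨h1, -, h3⟩ := arith (n := n') hP hD
  obtain ⟨r, hr⟩ := net_row (k + 1) n' u R K W T a hU (fun I hI => (hc I hI).trans
    (Nat.mul_le_mul_right _ (Nat.pow_le_pow_right (by norm_num) (by rw [← hP]; exact h1))))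
    (fun r => by
      have h1 : ∑ v, (T r).reads (low u v) ≤ ∑ v, (T r).reads (u, v, false) := by
        rw [Fin.sum_univ_succAbove _ u]
        unfold low
        exact Nat.le_add_left _ _
      refine h1.trans ((hd r).trans ?_)
      nlinarith)
  rw [← hP] at hr
  exact ⟨r, h3 _ hr⟩

/-- The asymptotic form. -/
theorem net_asym {ε : ℝ} (hε : 0 < ε) (hε1 : ε ≤ 1) : ∃ n₀ : ℕ, ∀ n ≥ n₀,
    ∀ w μ : ℕ, (w : ℝ) ≤ (n : ℝ) ^ (1 - ε) → (μ : ℝ) ≤ (n : ℝ) ^ (1 - ε) →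
    ∀ (R : Type) [Fintype R] [Nonempty R] (K W : R → Type) [∀ r, Field (K r)]
      [∀ r, Fintype (W r)] (T : ∀ r, Net (K r) (Pos n) (W r))
      (a : ∀ r, W r → K r), (∀ r, Fintype.card (W r) ≤ 2 ^ w) →
      (∀ r I, (T r).value (a r) I ≠ 0 → IsDist I) →
      (∀ I, IsDist I → Nat.card R ≤ 2 ^ μ * Nat.card {r // (T r).value (a r) I ≠ 0}) →
      ∀ u, ∃ r, ε / 540 * (n * Real.logb 2 n) ≤ (∑ v, (T r).reads (u, v, false) : ℕ) := by
  obtain ⟨n₀, hn₀⟩ := asym' 180 (by norm_num) hε hε1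
  refine ⟨n₀, fun n hn w μ hw hμ R _ _ K W _ _ T a hW hU hc u => ?_⟩
  obtain ⟨r, hr⟩ := hn₀ n hn w μ hw hμ R (fun r => ∑ v, (T r).reads (u, v, false))
    (fun r => Nat.log 2 (Fintype.card (W r))) (fun r => by
      refine (Nat.log_mono_right (hW r)).trans (le_of_eq ?_)
      exact Nat.log_pow (by norm_num) w) (fun k hk hd => by
      refine net_vertex k n u R K W T a hU (fun I hI => ?_) hd
      exact (hc I hI).trans (Nat.mul_le_mul_right _ (Nat.pow_le_pow_right (by norm_num) hk)))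
  refine ⟨r, le_trans (le_of_eq ?_) hr⟩
  norm_num

/-- All the low bits, one network. -/
theorem net_total {ε : ℝ} (hε : 0 < ε) (hε1 : ε ≤ 1) : ∃ n₀ : ℕ, ∀ n ≥ n₀,
    ∀ w : ℕ, (w : ℝ) ≤ (n : ℝ) ^ (1 - ε) →
    ∀ (K W : Type) [Field K] [Fintype W] (T : Net K (Pos n) W) (a : W → K),
      Fintype.card W ≤ 2 ^ w → (∀ I, T.value a I ≠ 0 ↔ IsDist I) →
      ε / 540 * (n ^ 2 * Real.logb 2 n) ≤ (∑ e : Fin n × Fin n, T.reads (e.1, e.2, false) : ℕ) := by
  obtain ⟨n₀, hn₀⟩ := net_asym hε hε1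
  refine ⟨n₀, fun n hn w hw K W _ _ T a hW h => ?_⟩
  have h1 : ∀ u : Fin n, ε / 540 * (n * Real.logb 2 n) ≤ (∑ v, T.reads (u, v, false) : ℕ) := by
    intro u
    obtain ⟨r, hr⟩ := hn₀ n hn w 0 hw (by push_cast; positivity) Unit (fun _ => K) (fun _ => W)
      (fun _ => T) (fun _ => a) (fun _ => hW) (fun _ I hI => (h I).1 hI)
      (fun I hI => by
        have h2 : Nat.card {r : Unit // T.value a I ≠ 0} = 1 := by
          rw [Nat.card_eq_one_iff_unique]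
          exact ⟨⟨fun a b => Subtype.ext rfl⟩, ⟨⟨(), (h I).2 hI⟩⟩⟩
        rw [h2, mul_one, Nat.card_unique]
        exact Nat.one_le_two_pow) u
    exact hr
  have h2 : ∑ u : Fin n, ε / 540 * (n * Real.logb 2 n) ≤
      ((∑ u : Fin n, ∑ v, T.reads (u, v, false) : ℕ) : ℝ) := by
    rw [Nat.cast_sum]
    exact sum_le_sum (fun u _ => h1 u)
  rw [sum_const, card_univ, Fintype.card_fin, nsmul_eq_mul] at h2
  rw [Fintype.sum_prod_type]
  calc ε / 540 * (n ^ 2 * Real.logb 2 n) = n * (ε / 540 * (n * Real.logb 2 n)) := by ring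
    _ ≤ _ := h2

/-- A network. -/
theorem net_upper (K : Type) [Field K] (n : ℕ) (hn : 2 ≤ n) (u : Fin n) :
    ∃ (W : Type) (_ : Fintype W) (T : Net K (Pos n) W) (a : W → K),
      Fintype.card W = 2 ^ (n - 1) + 1 ∧ (∀ v, v ≠ u → T.reads (u, v, false) = 1) ∧
        ∀ I, T.value a I ≠ 0 ↔ IsDist I := by
  classical
  have hinj : Set.InjOn (fun v : Fin n => ((u, v, false) : Pos n))
      (univ.erase u : Finset (Fin n)) := by
    intro v hv w hw h
    have h' : ((u, v, false) : Pos n) = (u, w, false) := h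
    rw [Prod.mk.injEq, Prod.mk.injEq] at h'
    exact h'.2.1
  obtain ⟨W, hW, T, a, h1, h2, h3⟩ := exists_net K
    ((univ.erase u : Finset (Fin n)).image (fun v => ((u, v, false) : Pos n)))
    (by
      refine Finset.Nonempty.image ?_ _
      rw [← card_pos, card_erase_of_mem (mem_univ _), card_univ, Fintype.card_fin]
      omega)
    ⟨(u, u, false), by
      rw [mem_image]
      rintro ⟨v, hv, h⟩
      rw [Prod.mk.injEq, Prod.mk.injEq] at h
      exact (mem_erase.1 hv).1 h.2.1⟩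
    (fun I => IsDist I)
  refine ⟨W, hW, T, a, ?_, fun v hv => h2 _ (mem_image_of_mem _ (mem_erase.2 ⟨hv, mem_univ _⟩)),
    h3⟩
  rw [h1, card_image_of_injOn hinj, card_erase_of_mem (mem_univ _), card_univ, Fintype.card_fin]

end Pool.Agent.V11177.TN.Met
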