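import Pool.Agent.W896.FD.Tri

/-!
# Weights which are distances: the hard instances
-/

set_option autoImplicit false
set_option maxHeartbeats 1000000

open Finset

namespace Pool.Agent.V11177.TN.Met

open Pool.Agent.W896.RK Pool.Agent.W896.HP Pool.Agent.W896.FD Pool.Agent.W896.FD.Star

variable {n b : ℕ}

/-- The positions of the bits: `(x, y, false)` is the low bit, `(x, y, true)` the high bit of the
weight of the arc from `x` to `y`. -/
abbrev Pos (n : ℕ) : Type := Fin n × Fin n × Bool

/-- The weight of the arc from `x` to `y`, one of the numbers `1, 2, 3, 4`. -/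
def wt {n : ℕ} (I : Pos n → Bool) (x y : Fin n) : ℕ :=
  1 + (I (x, y, false)).toNat + 2 * (I (x, y, true)).toNat

/-- The weights of the arcs are the distances: the triangle inequality. -/
def Closed {n : ℕ} (I : Pos n → Bool) : Prop :=
  ∀ x y z : Fin n, x ≠ y → y ≠ z → x ≠ z → wt I x z ≤ wt I x y + wt I y z

/-- The low bits of the arcs which leave the vertex `u`. -/
def low (u : Fin (n + 1)) (v : Fin n) : Pos (n + 1) := (u, u.succAbove v, false)

theorem low_inj (u : Fin (n + 1)) : Function.Injective (low u) := by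
  intro v w h
  unfold low at h
  rw [Prod.mk.injEq, Prod.mk.injEq] at h
  exact Fin.succAbove_right_injective h.2.1

/-- The arc is one of the hidden pairs. -/
def Mt (c : Fin b × Fin 4 → Fin n) (ρ : Equiv.Perm (Fin n)) (v w : Fin n) : Prop :=
  ∃ i, v = ρ (c (i, 0)) ∧ w = ρ (c (i, 2))

/-- The arc between two of the other vertices is one of the hidden pairs. -/
def MtS (u : Fin (n + 1)) (c : Fin b × Fin 4 → Fin n) (ρ : Equiv.Perm (Fin n))
    (x y : Fin (n + 1)) : Prop :=
  ∃ v w, x = u.succAbove v ∧ y = u.succAbove w ∧ Mt c ρ v w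

open Classical in
/-- The bits which are given. -/
noncomputable def base (u : Fin (n + 1)) (c : Fin b × Fin 4 → Fin n) (ρ : Equiv.Perm (Fin n)) :
    Pos (n + 1) → Bool
  | (x, y, false) => decide (MtS u c ρ x y)
  | (x, y, true) => if x = u then decide (∃ i, y = u.succAbove (ρ (c (i, 2))))
      else !decide (MtS u c ρ x y)

open Classical in
theorem base_low (u : Fin (n + 1)) (c : Fin b × Fin 4 → Fin n) (ρ : Equiv.Perm (Fin n))
    (x y : Fin (n + 1)) : base u c ρ (x, y, false) = decide (MtS u c ρ x y) := rfl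

open Classical in
theorem base_high (u : Fin (n + 1)) (c : Fin b × Fin 4 → Fin n) (ρ : Equiv.Perm (Fin n))
    (x y : Fin (n + 1)) : base u c ρ (x, y, true) =
      if x = u then decide (∃ i, y = u.succAbove (ρ (c (i, 2)))) else
        !decide (MtS u c ρ x y) := rfl

/-- The instance. -/
noncomputable def inst (u : Fin (n + 1)) (c : Fin b × Fin 4 → Fin n) (ρ : Equiv.Perm (Fin n))
    (z z' : Fin b → Bool) : Pos (n + 1) → Bool :=
  inS false (low u) (base u c) c ρ z z'

theorem grS_0 (c : Fin b × Fin 4 ↪ Fin n) (z z' : Fin b → Bool) (i : Fin b) :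
    grS false c z z' (c (i, 0)) = z i := by
  unfold grS
  exact fill_apply (prS_inj c.injective) _ _ (.inl i)

theorem grS_2 (c : Fin b × Fin 4 ↪ Fin n) (z z' : Fin b → Bool) (i : Fin b) :
    grS false c z z' (c (i, 2)) = z' i := by
  unfold grS
  refine (fill_apply (prS_inj c.injective) (fun _ => false)
    (Sum.elim z (fun i => xor false (z' i))) (.inr i)).trans ?_
  change xor false (z' i) = _
  rw [Bool.false_xor]

theorem inst_low (u : Fin (n + 1)) (c : Fin b × Fin 4 → Fin n) (ρ : Equiv.Perm (Fin n))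
    (z z' : Fin b → Bool) (v : Fin n) :
    inst u c ρ z z' (u, u.succAbove v, false) = grS false c z z' (ρ.symm v) := by
  unfold inst inS
  exact fill_apply (low_inj u) _ _ v

theorem inst_other (u : Fin (n + 1)) (c : Fin b × Fin 4 → Fin n) (ρ : Equiv.Perm (Fin n))
    (z z' : Fin b → Bool) {e : Pos (n + 1)} (h : ∀ v, low u v ≠ e) :
    inst u c ρ z z' e = base u c ρ e := by
  unfold inst inS
  rw [fill_other _ _ h]

theorem inst_high (u : Fin (n + 1)) (c : Fin b × Fin 4 → Fin n) (ρ : Equiv.Perm (Fin n))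
    (z z' : Fin b → Bool) (x y : Fin (n + 1)) :
    inst u c ρ z z' (x, y, true) = base u c ρ (x, y, true) := by
  refine inst_other u c ρ z z' (fun v h => ?_)
  unfold low at h
  rw [Prod.mk.injEq, Prod.mk.injEq] at h
  exact absurd h.2.2 (by decide)

theorem inst_ne (u : Fin (n + 1)) (c : Fin b × Fin 4 → Fin n) (ρ : Equiv.Perm (Fin n))
    (z z' : Fin b → Bool) {x y : Fin (n + 1)} (h : x ≠ u) :
    inst u c ρ z z' (x, y, false) = base u c ρ (x, y, false) := by
  refine inst_other u c ρ z z' (fun v h' => ?_)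
  unfold low at h'
  rw [Prod.mk.injEq] at h'
  exact h h'.1.symm

theorem mtS_iff (u : Fin (n + 1)) (c : Fin b × Fin 4 → Fin n) (ρ : Equiv.Perm (Fin n))
    (v w : Fin n) : MtS u c ρ (u.succAbove v) (u.succAbove w) ↔ Mt c ρ v w := by
  constructor
  · rintro ⟨v', w', h1, h2, h⟩
    rw [Fin.succAbove_right_injective h1, Fin.succAbove_right_injective h2]
    exact h
  · intro h
    exact ⟨v, w, rfl, rfl, h⟩

theorem mtS_ne (u : Fin (n + 1)) (c : Fin b × Fin 4 → Fin n) (ρ : Equiv.Perm (Fin n))
    (x : Fin (n + 1)) : ¬ MtS u c ρ x u := by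
  rintro ⟨v, w, -, h, -⟩
  exact Fin.ne_succAbove u w h

/-- The weight of an arc which does not leave `u` is `2` if the arc is a hidden pair, else `3`. -/
theorem wt_ne (u : Fin (n + 1)) (c : Fin b × Fin 4 → Fin n) (ρ : Equiv.Perm (Fin n))
    (z z' : Fin b → Bool) {x y : Fin (n + 1)} (h : x ≠ u) :
    (MtS u c ρ x y → wt (inst u c ρ z z') x y = 2) ∧
      (¬ MtS u c ρ x y → wt (inst u c ρ z z') x y = 3) := by
  classical
  unfold wt
  rw [inst_high, inst_ne u c ρ z z' h, base_low, base_high, if_neg h]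
  constructor
  · intro hm
    rw [decide_eq_true hm]
    rfl
  · intro hm
    rw [decide_eq_false hm]
    rfl

theorem wt_ne_ge (u : Fin (n + 1)) (c : Fin b × Fin 4 → Fin n) (ρ : Equiv.Perm (Fin n))
    (z z' : Fin b → Bool) {x y : Fin (n + 1)} (h : x ≠ u) :
    2 ≤ wt (inst u c ρ z z') x y ∧ wt (inst u c ρ z z') x y ≤ 3 := by
  by_cases hm : MtS u c ρ x y
  · rw [(wt_ne u c ρ z z' h).1 hm]
    exact ⟨le_rfl, by norm_num⟩
  · rw [(wt_ne u c ρ z z' h).2 hm]
    exact ⟨by norm_num, le_rfl⟩

theorem wt_u (u : Fin (n + 1)) (c : Fin b × Fin 4 → Fin n) (ρ : Equiv.Perm (Fin n))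
    (z z' : Fin b → Bool) (v : Fin n) :
    ((∃ i, v = ρ (c (i, 2))) → wt (inst u c ρ z z') u (u.succAbove v) =
      3 + (grS false c z z' (ρ.symm v)).toNat) ∧
    ((¬ ∃ i, v = ρ (c (i, 2))) → wt (inst u c ρ z z') u (u.succAbove v) =
      1 + (grS false c z z' (ρ.symm v)).toNat) := by
  classical
  have hiff : (∃ i, u.succAbove v = u.succAbove (ρ (c (i, 2)))) ↔ ∃ i, v = ρ (c (i, 2)) :=
    ⟨fun ⟨i, hi⟩ => ⟨i, Fin.succAbove_right_injective hi⟩, fun ⟨i, hi⟩ => ⟨i, by rw [hi]⟩⟩
  unfold wt
  rw [inst_high, inst_low, base_high, if_pos rfl]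
  constructor
  · intro h
    rw [decide_eq_true (hiff.2 h)]
    change 1 + _ + 2 * 1 = _
    ring
  · intro h
    rw [decide_eq_false (fun h' => h (hiff.1 h'))]
    change 1 + _ + 2 * 0 = _
    ring

theorem toNat_le (x : Bool) : x.toNat ≤ 1 := by cases x <;> decide

/-- Equal states: the weights are distances. -/
theorem closed (u : Fin (n + 1)) (c : Fin b × Fin 4 ↪ Fin n) (ρ : Equiv.Perm (Fin n))
    (z : Fin b → Bool) : Closed (inst u c ρ z z) := by
  intro x y t hxy hyt hxt
  by_cases hx : x = u
  · rw [hx] at hxy hxt ⊢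
    obtain ⟨v, hv⟩ : ∃ v, y = u.succAbove v := by
      rcases Fin.eq_self_or_eq_succAbove u y with h | h
      · exact absurd h.symm hxy
      · exact h
    obtain ⟨w, hw⟩ : ∃ w, t = u.succAbove w := by
      rcases Fin.eq_self_or_eq_succAbove u t with h | h
      · exact absurd h.symm hxt
      · exact h
    rw [hv, hw]
    have h1 := (wt_ne_ge u c ρ z z (x := u.succAbove v) (y := u.succAbove w)
      (Fin.succAbove_ne u v))
    have h1' : 1 ≤ wt (inst u c ρ z z) u (u.succAbove v) := by
      unfold wt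
      omega
    by_cases hw2 : ∃ i, w = ρ (c (i, 2))
    · obtain ⟨i, hi⟩ := hw2
      have h2 := (wt_u u c ρ z z w).1 ⟨i, hi⟩
      rw [hi, Equiv.symm_apply_apply, grS_2, ← hi] at h2
      by_cases hm : Mt c ρ v w
      · obtain ⟨j, hj1, hj2⟩ := hm
        have hij : j = i := by
          have := c.injective (ρ.injective (hj2.symm.trans hi))
          rw [Prod.mk.injEq] at this
          exact this.1
        rw [hij] at hj1 hj2
        have hnv : ¬ ∃ k, v = ρ (c (k, 2)) := by
          rintro ⟨k, hk⟩
          have := c.injective (ρ.injective (hj1.symm.trans hk))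
          rw [Prod.mk.injEq] at this
          exact absurd this.2 (by decide)
        have h3 := (wt_u u c ρ z z v).2 hnv
        rw [hj1, Equiv.symm_apply_apply, grS_0, ← hj1] at h3
        have h4 := (wt_ne u c ρ z z (x := u.succAbove v) (y := u.succAbove w)
          (Fin.succAbove_ne u v)).1 ((mtS_iff u c ρ v w).2 ⟨i, hj1, hj2⟩)
        rw [h2, h3, h4]
        omega
      · have h4 := (wt_ne u c ρ z z (x := u.succAbove v) (y := u.succAbove w)
          (Fin.succAbove_ne u v)).2 (fun h => hm ((mtS_iff u c ρ v w).1 h))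
        have h5 := toNat_le (z i)
        rw [h2, h4]
        omega
    · have h2 := (wt_u u c ρ z z w).2 hw2
      have h5 := toNat_le (grS false c z z (ρ.symm w))
      rw [h2]
      omega
  · have h1 := (wt_ne_ge u c ρ z z (x := x) (y := y) hx).1
    have h2 := (wt_ne_ge u c ρ z z (x := x) (y := t) hx).2
    have h3 : 1 ≤ wt (inst u c ρ z z) y t := by
      unfold wt
      omega
    omega

/-- Different states: some weight is not a distance. -/
theorem not_closed (u : Fin (n + 1)) (c : Fin b × Fin 4 ↪ Fin n) (ρ : Equiv.Perm (Fin n))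
    (z z' : Fin b → Bool) {i : Fin b} (h : z i = false) (h' : z' i = true) :
    ¬ Closed (inst u c ρ z z') := by
  intro hcl
  have hne : ρ (c (i, 0)) ≠ ρ (c (i, 2)) := by
    intro h2
    have := c.injective (ρ.injective h2)
    rw [Prod.mk.injEq] at this
    exact absurd this.2 (by decide)
  have h1 := hcl u (u.succAbove (ρ (c (i, 0)))) (u.succAbove (ρ (c (i, 2))))
    (Fin.ne_succAbove u _) (fun h2 => hne (Fin.succAbove_right_injective h2))
    (Fin.ne_succAbove u _)
  have hnv : ¬ ∃ k, ρ (c (i, 0)) = ρ (c (k, 2)) := by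
    rintro ⟨k, hk⟩
    have := c.injective (ρ.injective hk)
    rw [Prod.mk.injEq] at this
    exact absurd this.2 (by decide)
  rw [(wt_u u c ρ z z' _).1 ⟨i, rfl⟩, (wt_u u c ρ z z' _).2 hnv,
    (wt_ne u c ρ z z' (Fin.succAbove_ne u _)).1 ((mtS_iff u c ρ _ _).2 ⟨i, rfl, rfl⟩),
    Equiv.symm_apply_apply, Equiv.symm_apply_apply, grS_0, grS_2, h, h'] at h1
  exact absurd h1 (by decide)

theorem excl (u : Fin (n + 1)) (c : Fin b × Fin 4 ↪ Fin n) (ρ : Equiv.Perm (Fin n))
    (z z' : Fin b → Bool) (h : 0 < dst z z') :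
    ¬ (Closed (inst u c ρ z z') ∧ Closed (inst u c ρ z' z)) := by
  rintro ⟨h1, h2⟩
  unfold dst at h
  obtain ⟨i, hi⟩ := card_pos.1 h
  have hi' := (mem_filter.1 hi).2
  cases hz : z i with
  | true =>
    cases hz' : z' i with
    | true => exact hi' (by rw [hz, hz'])
    | false => exact not_closed u c ρ z' z hz' hz h2
  | false =>
    cases hz' : z' i with
    | true => exact not_closed u c ρ z z' hz hz' h1
    | false => exact hi' (by rw [hz, hz'])

/-- The total weight of the walk with the given list of vertices. -/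
def total {n : ℕ} (I : Pos n → Bool) : List (Fin n) → ℕ
  | [] => 0
  | [_] => 0
  | x :: y :: l => wt I x y + total I (y :: l)

/-- The weights of the arcs are the distances: no walk from `x` to `y` is shorter than the arc from
`x` to `y`. -/
def IsDist {n : ℕ} (I : Pos n → Bool) : Prop :=
  ∀ (l : List (Fin n)) (x y : Fin n), x ≠ y → List.IsChain (· ≠ ·) l → l.head? = some x →
    l.getLast? = some y → wt I x y ≤ total I l

theorem closed_walk {n : ℕ} {I : Pos n → Bool} (h : Closed I) :
    ∀ (l : List (Fin n)) (x y : Fin n), x ≠ y → List.IsChain (· ≠ ·) (x :: l) →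
      (x :: l).getLast? = some y → wt I x y ≤ total I (x :: l)
  | [], x, y, hxy, _, hl => by
    rw [List.getLast?_singleton, Option.some.injEq] at hl
    exact absurd hl hxy
  | a :: l, x, y, hxy, hc, hl => by
    rw [total]
    rw [List.isChain_cons_cons] at hc
    rw [List.getLast?_cons_cons] at hl
    by_cases hay : a = y
    · rw [hay]
      exact Nat.le_add_right _ _
    · have h1 := closed_walk h l a y hay hc.2 hl
      have h2 := h x a y hc.1 hay hxy
      omega

theorem isDist_iff {n : ℕ} (I : Pos n → Bool) : IsDist I ↔ Closed I := by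
  constructor
  · intro h x y z hxy hyz hxz
    have h1 := h [x, y, z] x z hxz (by simp [hxy, hyz]) rfl rfl
    have h2 : total I [x, y, z] = wt I x y + (wt I y z + 0) := rfl
    rw [h2] at h1
    omega
  · intro h l x y hxy hc h1 h2
    cases l with
    | nil => exact absurd h1 (by simp)
    | cons a l =>
      rw [List.head?_cons, Option.some.injEq] at h1
      subst h1
      exact closed_walk h l a y hxy hc h2

end Pool.Agent.V11177.TN.Met
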